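import Pool.Agent.Helper5.N2.Stmts2

/-!
# Row A3 of project N2: gradient bound
-/

set_option autoImplicit false

namespace N252
open N2

/-- Cauchy-Schwarz for complex finite sums -/
lemma cs {m : ℕ} (a b : Fin m → ℂ) :
    ‖∑ i, a i * b i‖ ≤ Real.sqrt (∑ i, ‖a i‖ ^ 2) * Real.sqrt (∑ i, ‖b i‖ ^ 2) := by
  calc ‖∑ i, a i * b i‖ ≤ ∑ i, ‖a i * b i‖ := norm_sum_le _ _
    _ = ∑ i, ‖a i‖ * ‖b i‖ := Finset.sum_congr rfl fun i _ => norm_mul _ _
    _ ≤ _ := Real.sum_mul_le_sqrt_mul_sqrt _ _ _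

/-- the real inequality behind A3 -/
lemma rin (k F P R e d : ℝ) (hk : 0 < k) (hF : 0 < F) (he : 0 ≤ e) (hR : k * R ^ 2 ≤ 1)
    (hd : d ≤ 0) :
    F * (4 * k / 25 * (e * (1 + k / 4 * R ^ 2)) ^ 2 - 4 * k * (e * (1 + k / 4 * R ^ 2)))
      ≤ (P ^ 2 / F - 2 * k * (e * F) + k ^ 2 * F * R ^ 2 - d * e) * (1 + k / 4 * R ^ 2)
        - (k / 2) * (2 * P * R * e + 2 * k * R ^ 2 * (e * F))
        + e * (k / 4) * (2 * (e * F) - 2 * k * F * R ^ 2) := by
  have ht0 : 0 ≤ k * R ^ 2 := by positivity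
  have hid : (P ^ 2 / F - 2 * k * (e * F) + k ^ 2 * F * R ^ 2 - d * e) * (1 + k / 4 * R ^ 2)
        - (k / 2) * (2 * P * R * e + 2 * k * R ^ 2 * (e * F))
        + e * (k / 4) * (2 * (e * F) - 2 * k * F * R ^ 2)
      - F * (4 * k / 25 * (e * (1 + k / 4 * R ^ 2)) ^ 2 - 4 * k * (e * (1 + k / 4 * R ^ 2)))
      = P ^ 2 / F * (k * R ^ 2 / 4) + k * F * (k * R ^ 2) * (1 + k * R ^ 2 / 4)
        + (-d) * e * (1 + k * R ^ 2 / 4) + (P - k / 2 * e * R * F) ^ 2 / F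
        + k * F * (e ^ 2 * ((1 - k * R ^ 2) * (34 + k * R ^ 2) / 100) + e * (2 - k * R ^ 2)) := by
    field_simp
    ring
  have h1 : 0 ≤ P ^ 2 / F * (k * R ^ 2 / 4) := by positivity
  have h2 : 0 ≤ k * F * (k * R ^ 2) * (1 + k * R ^ 2 / 4) := by positivity
  have h3 : 0 ≤ (-d) * e * (1 + k * R ^ 2 / 4) :=
    mul_nonneg (mul_nonneg (by linarith) he) (by positivity)
  have h4 : 0 ≤ (P - k / 2 * e * R * F) ^ 2 / F := by positivity
  have h5 : 0 ≤ k * F * (e ^ 2 * ((1 - k * R ^ 2) * (34 + k * R ^ 2) / 100) + e * (2 - k * R ^ 2)) := by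
    refine mul_nonneg (by positivity) (add_nonneg (mul_nonneg (by positivity) ?_)
      (mul_nonneg he (by linarith)))
    exact div_nonneg (mul_nonneg (by linarith) (by linarith)) (by norm_num)
  linarith

section
variable {m : ℕ} (N : Nt Sm m)

lemma evF (p : ℝ × ℝ) : ev p N.F = (((ev p N.F).re : ℝ) : ℂ) ∧ 0 < (ev p N.F).re := by
  have h1 : ev p N.F = ((∑ i, ‖ev p (N.A i)‖ ^ 2 : ℝ) : ℂ) := by
    have h := (ev p).dot_cjv N.A
    rw [N.hAB] at h
    exact h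
  have h2 : ev p N.F * ev p N.G = 1 := by
    have h := congrArg (fun f => ev p f) N.hFG
    simpa [map_mul] using h
  have hne : ev p N.F ≠ 0 := fun h0 => by rw [h0, zero_mul] at h2; exact zero_ne_one h2
  have hre : (ev p N.F).re = ∑ i, ‖ev p (N.A i)‖ ^ 2 := by rw [h1]; exact Complex.ofReal_re _
  have hF : ev p N.F = (((ev p N.F).re : ℝ) : ℂ) := by rw [hre]; exact h1
  refine ⟨hF, lt_of_le_of_ne ?_ ?_⟩
  · rw [hre]; exact Finset.sum_nonneg fun i _ => sq_nonneg _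
  · intro h0
    apply hne
    rw [hF, ← h0]; simp

lemma dv'ps : Dv' N.ps = cjv (Dv N.ps) := by
  have h := Dv'_cjv N.ps
  rw [N.hpr] at h
  exact h

lemma dv'dvps : Dv' (Dv N.ps) = (-(N.K * N.F)) • N.ps := by
  have h := N.hPhi
  rw [Dv'_sub, N.hA, sub_eq_zero] at h
  exact h.symm

lemma Dg_eq : D N.g = 2 * dot (Dv N.ps) N.ps := by
  have h : N.g = dot N.ps N.ps := rfl
  rw [h, D_dot, dot_comm N.ps (Dv N.ps)]
  ring

lemma D'Dg_eq : D' (D N.g) = 2 * dot (Dv N.ps) (Dv' N.ps) - 2 * (N.K * N.F * N.g) := by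
  rw [Dg_eq, D'_mul, D'_ofNat, D'_dot, dv'dvps, smul_dot]
  have h : N.g = dot N.ps N.ps := rfl
  rw [← h]
  ring

lemma e_F : dot (Dv N.ps) (Dv' N.ps) = N.e * N.F := by
  have h : N.e = dot (Dv N.ps) (Dv' N.ps) * N.G := rfl
  have hFG := N.hFG
  rw [h]
  linear_combination (-(dot (Dv N.ps) (Dv' N.ps))) * hFG

lemma cj_e (hG : cj N.G = N.G) : cj N.e = N.e := by
  have h : N.e = dot (Dv N.ps) (Dv' N.ps) * N.G := rfl
  rw [h, map_mul, cj_dot, hG, dv'ps, cjv_cjv, dot_comm]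

end

/-- A3: gradient bound -/
theorem st_A3 (hCY : ST_CY) (hA1 : ST_A1) (hA2 : ST_A2) (hG1 : ST_G1) : ST_A3 := by
  intro m N hk hE hph
  have hg1 := hA1 m N hk hE
  obtain ⟨hcK, hcG, hcg, -, -, -, -, -, -, -, -, -, -, -, -, -, -, -⟩ := hG1 Sm m N
  obtain ⟨hDe, hD'De⟩ := hA2 Sm m N
  obtain ⟨f, κ, hκ, hcf, hf0, hfc, hf1, hf2⟩ := hE
  have hce := cj_e N hcG
  -- values at a point
  have hps : ∀ (p : ℝ × ℝ) (i : Fin m), (starRingEnd ℂ) (ev p (N.ps i)) = ev p (N.ps i) := by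
    intro p i
    rw [← (ev p).hcj]
    exact congrArg (fun h => ev p h) (congrFun N.hpr i)
  have hgv : ∀ p, ev p N.g = ((∑ i, ‖ev p (N.ps i)‖ ^ 2 : ℝ) : ℂ) := by
    intro p
    have h := (ev p).dot_cjv N.ps
    rw [N.hpr] at h
    exact h
  have hgr : ∀ p, (ev p N.g).re = ∑ i, ‖ev p (N.ps i)‖ ^ 2 := by
    intro p; rw [hgv p]; exact Complex.ofReal_re _
  have hg0 : ∀ p, 0 ≤ (ev p N.g).re := by
    intro p; rw [hgr p]; exact Finset.sum_nonneg fun i _ => sq_nonneg _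
  have hgv' : ∀ p, ev p N.g = (((ev p N.g).re : ℝ) : ℂ) := by
    intro p; rw [hgr p]; exact hgv p
  have hSv : ∀ p, ev p (dot (Dv N.ps) (Dv' N.ps)) = ((∑ i, ‖ev p (Dv N.ps i)‖ ^ 2 : ℝ) : ℂ) := by
    intro p
    rw [dv'ps]
    exact (ev p).dot_cjv (Dv N.ps)
  have hGv : ∀ p, ev p N.G = (((ev p N.F).re⁻¹ : ℝ) : ℂ) := by
    intro p
    obtain ⟨h1, h2⟩ := evF N p
    have h3 : ev p N.F * ev p N.G = 1 := by
      have h := congrArg (fun f => ev p f) N.hFG
      simpa [map_mul] using h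
    rw [h1] at h3
    have h4 : (((ev p N.F).re : ℝ) : ℂ) ≠ 0 := by exact_mod_cast h2.ne'
    rw [Complex.ofReal_inv]
    exact eq_inv_of_mul_eq_one_right h3
  have hev : ∀ p, ev p N.e = (((∑ i, ‖ev p (Dv N.ps i)‖ ^ 2) * (ev p N.F).re⁻¹ : ℝ) : ℂ) := by
    intro p
    have h : N.e = dot (Dv N.ps) (Dv' N.ps) * N.G := rfl
    have h2 : ev p N.e = ev p (dot (Dv N.ps) (Dv' N.ps)) * ev p N.G := by
      rw [h]; exact map_mul _ _ _
    rw [h2, hSv, hGv, Complex.ofReal_mul]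
  have her : ∀ p, (ev p N.e).re = (∑ i, ‖ev p (Dv N.ps i)‖ ^ 2) * (ev p N.F).re⁻¹ := by
    intro p; rw [hev p]; exact Complex.ofReal_re _
  have hev' : ∀ p, ev p N.e = (((ev p N.e).re : ℝ) : ℂ) := by
    intro p; rw [her p]; exact hev p
  have he0 : ∀ p, 0 ≤ (ev p N.e).re := by
    intro p; rw [her p]
    exact mul_nonneg (Finset.sum_nonneg fun i _ => sq_nonneg _) (inv_nonneg.2 (evF N p).2.le)
  -- the function u
  obtain ⟨u, hu⟩ : ∃ u : Sm, u = N.e * (1 + Cst (((N.k / 4 : ℝ)) : ℂ) * N.g) := ⟨_, rfl⟩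
  have hcu : cj u = u := by
    rw [hu, map_mul, map_add, map_one, map_mul, hce, hcg, cj_real]
  have huv : ∀ p, ev p u = (((ev p N.e).re * (1 + N.k / 4 * (ev p N.g).re) : ℝ) : ℂ) := by
    intro p
    have h : ev p u = ev p N.e * (1 + ((N.k / 4 : ℝ) : ℂ) * ev p N.g) := by
      rw [hu]
      have h1 : ev p (N.e * (1 + Cst (((N.k / 4 : ℝ)) : ℂ) * N.g))
          = ev p N.e * (1 + ev p (Cst (((N.k / 4 : ℝ)) : ℂ)) * ev p N.g) := by
        simp [map_mul, map_add]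
      rw [h1, (ev p).hC]
    rw [h, hev' p, hgv' p]
    push_cast
    simp only [Complex.ofReal_re]
  have hur : ∀ p, (ev p u).re = (ev p N.e).re * (1 + N.k / 4 * (ev p N.g).re) := by
    intro p; rw [huv p]; exact Complex.ofReal_re _
  have hu0 : ∀ p, 0 ≤ (ev p u).re := by
    intro p; rw [hur p]
    have := he0 p; have := hg0 p
    positivity
  have hmain : ∀ p, (ev p N.F).re * ((4 * N.k / 25) * (ev p u).re ^ 2 - (4 * N.k) * (ev p u).re)
      ≤ (ev p (D' (D u))).re := by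
    intro p
    obtain ⟨hF1, hF2⟩ := evF N p
    -- second derivative of u in the ring
    have hD'e : D' N.e = cj (D N.e) := by
      have h := D'_cj N.e
      rwa [hce] at h
    have hD'g : D' N.g = cj (D N.g) := by
      have h := D'_cj N.g
      rwa [hcg] at h
    have hDDu : D' (D u) = D' (D N.e) * (1 + Cst (((N.k / 4 : ℝ)) : ℂ) * N.g)
        + Cst (((N.k / 4 : ℝ)) : ℂ) * (D N.e * cj (D N.g) + cj (D N.e) * D N.g)
        + N.e * (Cst (((N.k / 4 : ℝ)) : ℂ) * D' (D N.g)) := by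
      rw [hu]
      simp only [D_mul, D_add, D_one, D_Cst, D'_mul, D'_add, D'_one, D'_Cst, D'_zero]
      rw [hD'e, hD'g]
      ring
    set r : ℝ := (ev p N.F).re with hr
    set e : ℝ := (ev p N.e).re with hedef
    set g : ℝ := (ev p N.g).re with hgdef
    have hval : ev p (D' (D u)) = ev p (D' (D N.e)) * (1 + ((N.k / 4 : ℝ) : ℂ) * ev p N.g)
        + ((N.k / 4 : ℝ) : ℂ) * (ev p (D N.e) * (starRingEnd ℂ) (ev p (D N.g))
            + (starRingEnd ℂ) (ev p (D N.e)) * ev p (D N.g))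
        + ev p N.e * (((N.k / 4 : ℝ) : ℂ) * ev p (D' (D N.g))) := by
      rw [hDDu]
      have h1 := (ev p).hC (((N.k / 4 : ℝ)) : ℂ)
      have h2 := (ev p).hcj (D N.g)
      have h3 := (ev p).hcj (D N.e)
      simp only [map_add, map_mul, map_one, h1, h2, h3]
    have hcross : ∀ z w : ℂ, (z * (starRingEnd ℂ) w + (starRingEnd ℂ) z * w).re
        ≥ -(2 * (‖z‖ * ‖w‖)) := by
      intro z w
      have h1 : (z * (starRingEnd ℂ) w + (starRingEnd ℂ) z * w).re = 2 * (z * (starRingEnd ℂ) w).re := by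
        simp only [Complex.add_re, Complex.mul_re, Complex.conj_re, Complex.conj_im]
        ring
      have h2 : -(‖z‖ * ‖w‖) ≤ (z * (starRingEnd ℂ) w).re := by
        have h3 := Complex.abs_re_le_norm (z * (starRingEnd ℂ) w)
        rw [norm_mul, RCLike.norm_conj] at h3
        exact (abs_le.1 h3).1
      rw [h1]; linarith
    -- the sums
    set Q : ℝ := Real.sqrt (∑ i, ‖ev p (Dv N.ps i)‖ ^ 2) with hQ
    set R : ℝ := Real.sqrt (∑ i, ‖ev p (N.ps i)‖ ^ 2) with hR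
    set P : ℝ := Real.sqrt (∑ i, ‖ev p (N.X i)‖ ^ 2) with hP
    have hQ2 : Q ^ 2 = ∑ i, ‖ev p (Dv N.ps i)‖ ^ 2 :=
      Real.sq_sqrt (Finset.sum_nonneg fun i _ => sq_nonneg _)
    have hR2 : R ^ 2 = g := by
      rw [hgdef, hgr p]
      exact Real.sq_sqrt (Finset.sum_nonneg fun i _ => sq_nonneg _)
    have hP2 : P ^ 2 = ∑ i, ‖ev p (N.X i)‖ ^ 2 :=
      Real.sq_sqrt (Finset.sum_nonneg fun i _ => sq_nonneg _)
    have hQe : Q ^ 2 = e * r := by
      rw [hQ2, hedef, her p, mul_assoc, inv_mul_cancel₀ hF2.ne', mul_one]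
    have hQ0 : 0 ≤ Q := Real.sqrt_nonneg _
    have hR0 : 0 ≤ R := Real.sqrt_nonneg _
    have hP0 : 0 ≤ P := Real.sqrt_nonneg _
    have hKv : ev p N.K = ((N.k : ℝ) : ℂ) := (ev p).hC _
    have h2v : ev p (2 : Sm) = 2 := map_ofNat (ev p).h 2
    -- norms
    have hnDg : ‖ev p (D N.g)‖ ≤ 2 * (Q * R) := by
      rw [Dg_eq]
      have h1 : ev p (2 * dot (Dv N.ps) N.ps) = 2 * ∑ i, ev p (Dv N.ps i) * ev p (N.ps i) := by
        rw [← Ev.dot, map_mul, h2v]
      rw [h1, norm_mul]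
      have h2 := cs (fun i => ev p (Dv N.ps i)) (fun i => ev p (N.ps i))
      have h3 : ‖(2 : ℂ)‖ = 2 := by simp
      rw [h3]
      linarith
    have hnDe : ‖ev p (D N.e)‖ ≤ P * Q / r + N.k * (Q * R) := by
      rw [hDe]
      have h1 : ev p (dot N.X (Dv' N.ps) * N.G - N.K * dot (Dv N.ps) N.ps)
          = (∑ i, ev p (N.X i) * (starRingEnd ℂ) (ev p (Dv N.ps i))) * ((r⁻¹ : ℝ) : ℂ)
            - ((N.k : ℝ) : ℂ) * ∑ i, ev p (Dv N.ps i) * ev p (N.ps i) := by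
        have h2 : ev p (dot N.X (Dv' N.ps)) = ∑ i, ev p (N.X i) * (starRingEnd ℂ) (ev p (Dv N.ps i)) := by
          rw [dv'ps, Ev.dot]
          exact Finset.sum_congr rfl fun i _ => by
            rw [← (ev p).hcj]; rfl
        have h3 := Ev.dot (ev p) (Dv N.ps) N.ps
        have h4 : ev p (dot N.X (Dv' N.ps) * N.G - N.K * dot (Dv N.ps) N.ps)
            = ev p (dot N.X (Dv' N.ps)) * ev p N.G - ev p N.K * ev p (dot (Dv N.ps) N.ps) := by
          simp [map_mul, map_sub]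
        rw [h4, h2, h3, hKv, hGv p]
      rw [h1]
      refine (norm_sub_le _ _).trans ?_
      rw [norm_mul, norm_mul]
      have h5 := cs (fun i => ev p (N.X i)) (fun i => (starRingEnd ℂ) (ev p (Dv N.ps i)))
      simp only [RCLike.norm_conj] at h5
      have h6 := cs (fun i => ev p (Dv N.ps i)) (fun i => ev p (N.ps i))
      have h7 : ‖((r⁻¹ : ℝ) : ℂ)‖ = r⁻¹ := by
        rw [Complex.norm_real, Real.norm_of_nonneg (inv_nonneg.2 hF2.le)]
      have h8 : ‖((N.k : ℝ) : ℂ)‖ = N.k := by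
        rw [Complex.norm_real, Real.norm_of_nonneg hk.le]
      rw [h7, h8]
      have h9 : ‖∑ i, ev p (N.X i) * (starRingEnd ℂ) (ev p (Dv N.ps i))‖ * r⁻¹ ≤ P * Q * r⁻¹ :=
        mul_le_mul_of_nonneg_right h5 (inv_nonneg.2 hF2.le)
      have h10 : N.k * ‖∑ i, ev p (Dv N.ps i) * ev p (N.ps i)‖ ≤ N.k * (Q * R) :=
        mul_le_mul_of_nonneg_left h6 hk.le
      rw [div_eq_mul_inv]
      linarith
    -- real parts
    have hreg : (ev p (D' (D N.g))).re = 2 * (e * r) - 2 * N.k * r * R ^ 2 := by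
      rw [D'Dg_eq]
      have h1 : ev p (2 * dot (Dv N.ps) (Dv' N.ps) - 2 * (N.K * N.F * N.g))
          = 2 * ev p (dot (Dv N.ps) (Dv' N.ps)) - 2 * (ev p N.K * ev p N.F * ev p N.g) := by
        simp only [map_mul, map_sub, h2v]
      rw [h1, hSv p, ← hQ2, hQe, hKv, hF1, hgv' p, hR2]
      norm_cast
      ring
    have hree : (ev p (D' (D N.e))).re
        = P ^ 2 / r - 2 * N.k * (e * r) + N.k ^ 2 * r * R ^ 2 - (ev p (D' N.ph)).re * e := by
      rw [hD'De]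
      have h1 : ev p (dot N.X (cjv N.X) * N.G - 2 * N.K * dot (Dv N.ps) (Dv' N.ps)
            + N.K * N.K * N.F * N.g - D' N.ph * N.e)
          = ev p (dot N.X (cjv N.X)) * ev p N.G - 2 * ev p N.K * ev p (dot (Dv N.ps) (Dv' N.ps))
            + ev p N.K * ev p N.K * ev p N.F * ev p N.g - ev p (D' N.ph) * ev p N.e := by
        simp only [map_mul, map_sub, map_add, h2v]
      rw [h1, hSv p, ← hQ2, hQe, hKv, hF1, hgv' p, ← hgdef, ← hR2, hGv p, (ev p).dot_cjv, ← hP2,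
        hev' p]
      rw [Complex.sub_re, Complex.re_mul_ofReal]
      congr 1
      norm_cast
      rw [div_eq_mul_inv]
      ring
    -- assemble
    have hre : (ev p (D' (D u))).re
        = (ev p (D' (D N.e))).re * (1 + N.k / 4 * R ^ 2)
          + N.k / 4 * (ev p (D N.e) * (starRingEnd ℂ) (ev p (D N.g))
            + (starRingEnd ℂ) (ev p (D N.e)) * ev p (D N.g)).re
          + e * (N.k / 4) * (ev p (D' (D N.g))).re := by
      rw [hval, hgv' p, ← hgdef, ← hR2, hev' p]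
      have h1 : (1 + ((N.k / 4 : ℝ) : ℂ) * ((R ^ 2 : ℝ) : ℂ)) = ((1 + N.k / 4 * R ^ 2 : ℝ) : ℂ) := by
        push_cast; ring
      rw [h1, Complex.add_re, Complex.add_re, Complex.re_mul_ofReal, Complex.re_ofReal_mul,
        Complex.re_ofReal_mul, Complex.re_ofReal_mul]
      ring
    rw [hre, hreg, hree, hur p, ← hgdef, ← hR2]
    have hc := hcross (ev p (D N.e)) (ev p (D N.g))
    have hpr : ‖ev p (D N.e)‖ * ‖ev p (D N.g)‖ ≤ (P * Q / r + N.k * (Q * R)) * (2 * (Q * R)) :=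
      mul_le_mul hnDe hnDg (norm_nonneg _) (by positivity)
    have hpr2 : (P * Q / r + N.k * (Q * R)) * (2 * (Q * R))
        = 2 * P * R * e + 2 * N.k * R ^ 2 * (e * r) := by
      have h1 : (P * Q / r + N.k * (Q * R)) * (2 * (Q * R))
          = 2 * P * R * (Q ^ 2 / r) + 2 * N.k * R ^ 2 * Q ^ 2 := by
        field_simp
      rw [h1, hQe, mul_div_assoc, div_self hF2.ne', mul_one]
    have hkR : N.k * R ^ 2 ≤ 1 := by
      rw [hR2]
      have h := hg1 p
      rw [le_div_iff₀ hk] at h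
      linarith
    have hfin := rin N.k r P R e (ev p (D' N.ph)).re hk hF2 (he0 p) hkR (hph p)
    rw [hpr2] at hpr
    nlinarith [hfin, hc, hpr, hk]
  -- the exhaustion
  have hsq : ∀ p, Real.sqrt (ev p N.g).re ≤ Real.sqrt (1 / N.k) := fun p => Real.sqrt_le_sqrt (hg1 p)
  have hs0 : 0 ≤ Real.sqrt (1 / N.k) := Real.sqrt_nonneg _
  have hres := hCY u f N.F (4 * N.k / 25) (4 * N.k) (κ * (1 + Real.sqrt (1 / N.k))) hcu hcf N.hFr
    (fun p => (evF N p).2) hu0 (by positivity) (by positivity) (by positivity) hf0 hfc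
    (fun p => (hf1 p).trans (by
      have h1 := (evF N p).2
      have h2 : κ * (ev p N.F).re * 1 ≤ κ * (ev p N.F).re * (1 + Real.sqrt (1 / N.k)) :=
        mul_le_mul_of_nonneg_left (by linarith) (by positivity)
      linarith))
    (fun p => (hf2 p).trans (by
      have h1 := (evF N p).2
      have h2 : κ * (ev p N.F).re * (1 + Real.sqrt (ev p N.g).re)
          ≤ κ * (ev p N.F).re * (1 + Real.sqrt (1 / N.k)) :=
        mul_le_mul_of_nonneg_left (by linarith [hsq p]) (by positivity)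
      have h3 : κ * (ev p N.F).re * (1 + Real.sqrt (1 / N.k)) * 1
          ≤ κ * (ev p N.F).re * (1 + Real.sqrt (1 / N.k)) * (1 + Real.sqrt (ev p u).re) :=
        mul_le_mul_of_nonneg_left (by linarith [Real.sqrt_nonneg (ev p u).re]) (by positivity)
      linarith)) hmain
  intro p
  have h1 := hres p
  have h2 : 4 * N.k / (4 * N.k / 25) = 25 := by
    field_simp
  rw [h2, hur p] at h1
  have h3 := he0 p
  have h4 := hg0 p
  have h5 : 0 ≤ (ev p N.e).re * (N.k / 4 * (ev p N.g).re) := by positivity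
  linarith

end N252
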