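import Pool.Agent.Helper5.N2.Stmts2

/-!
# Row CONV of project N2: from a null 2-type conformal immersion to the data `Nt`
-/

set_option autoImplicit false
open scoped ContDiff

namespace N252
open N2

section
variable {m : ℕ}

/-- the complex valued coordinate -/
noncomputable def Lc (i : Fin m) : EuclideanSpace ℝ (Fin m) →L[ℝ] ℂ :=
  Complex.ofRealCLM.comp (EuclideanSpace.proj i)

lemma Lc_apply (i : Fin m) (v : EuclideanSpace ℝ (Fin m)) : Lc i v = ((v i : ℝ) : ℂ) := rfl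

/-- coordinates of a smooth vector function -/
noncomputable def cmp (u : ℝ × ℝ → EuclideanSpace ℝ (Fin m)) (hu : ContDiff ℝ ∞ u) (i : Fin m) : Sm :=
  Sm.mk (fun p => Lc i (u p)) ((Lc i).contDiff.comp hu)

lemma cmp_val (u : ℝ × ℝ → EuclideanSpace ℝ (Fin m)) (hu : ContDiff ℝ ∞ u) (i : Fin m) (p : ℝ × ℝ) :
    (cmp u hu i).val p = ((u p i : ℝ) : ℂ) := rfl

lemma contDiff_dir (u : ℝ × ℝ → EuclideanSpace ℝ (Fin m)) (hu : ContDiff ℝ ∞ u) (e : ℝ × ℝ) :
    ContDiff ℝ ∞ (fun p => fderiv ℝ u p e) := by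
  have h : ContDiff ℝ ∞ (fderiv ℝ u) := ContDiff.fderiv_right (m := ∞) hu le_rfl
  exact h.clm_apply contDiff_const

lemma pd_cmp (e : ℝ × ℝ) (u : ℝ × ℝ → EuclideanSpace ℝ (Fin m)) (hu : ContDiff ℝ ∞ u) (i : Fin m) :
    pd e (cmp u hu i) = cmp (fun p => fderiv ℝ u p e) (contDiff_dir u hu e) i := by
  apply Sm.ext; intro p
  have hd : DifferentiableAt ℝ u p := (hu.differentiable (by simp)) p
  change fderiv ℝ (fun q => Lc i (u q)) p e = Lc i (fderiv ℝ u p e)
  have h := ((Lc i).hasFDerivAt.comp p hd.hasFDerivAt).fderiv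
  have h2 : fderiv ℝ (fun q => Lc i (u q)) p = (Lc i).comp (fderiv ℝ u p) := h
  rw [h2]; rfl

lemma D'D_pd (h : Sm) (p : ℝ × ℝ) :
    (D' (D h)).val p = (1 / 4) * ((pd (1, 0) (pd (1, 0) h)).val p + (pd (0, 1) (pd (0, 1) h)).val p) := by
  have h1 : D' (D h) = cst (1 / 2) * (pd (1, 0) (cst (1 / 2) * (pd (1, 0) h - cst Complex.I * pd (0, 1) h))
      + cst Complex.I * pd (0, 1) (cst (1 / 2) * (pd (1, 0) h - cst Complex.I * pd (0, 1) h))) := rfl
  have hc : (pd (1, 0) (pd (0, 1) h)).val p = (pd (0, 1) (pd (1, 0) h)).val p :=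
    congrArg (fun f => f.val p) (pd_comm (1, 0) (0, 1) h)
  rw [h1]
  simp only [pd_mul, pd_cst, zero_mul, zero_add, sub_eq_add_neg, pd_add, pd_neg, mul_val, add_val,
    neg_val, cst_val]
  rw [hc]
  linear_combination (-(1 / 4) * (pd (0, 1) (pd (0, 1) h)).val p) * Complex.I_sq

end

/-- CONV -/
theorem st_CONV : ST_CONV := by
  intro m f g11 g12 g22 dt Lap hI c hc hL
  obtain ⟨hf, h11, h12, h22, hdt, hdt0, h120, h1122, hLap⟩ := hI
  have hf' : ContDiff ℝ ∞ f := hf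
  -- the metric
  have hdt' : ∀ p, dt p = g11 p ^ 2 := by
    intro p; rw [hdt p, h120 p, ← h1122 p]; ring
  have h11nn : ∀ p, 0 ≤ g11 p := by
    intro p; rw [h11 p]; exact real_inner_self_nonneg
  have h11pos : ∀ p, 0 < g11 p := by
    intro p
    have h1 := hdt0 p
    rw [hdt' p] at h1
    exact lt_of_le_of_ne (h11nn p) fun h0 => by rw [← h0] at h1; norm_num at h1
  have hsq : ∀ p, Real.sqrt (dt p) = g11 p := by
    intro p; rw [hdt' p]; exact Real.sqrt_sq (h11nn p)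
  have h11s : ContDiff ℝ ∞ g11 := by
    have h1 : g11 = fun p => inner ℝ (fderiv ℝ f p (1, 0)) (fderiv ℝ f p (1, 0)) := funext h11
    rw [h1]
    exact (contDiff_dir f hf' (1, 0)).inner ℝ (contDiff_dir f hf' (1, 0))
  have h11i : ContDiff ℝ ∞ (fun p => (g11 p)⁻¹) := h11s.inv fun p => (h11pos p).ne'
  -- the Laplacian
  have hLap' : ∀ (u : ℝ × ℝ → EuclideanSpace ℝ (Fin m)) (p : ℝ × ℝ), Lap u p
      = (g11 p)⁻¹ • (fderiv ℝ (fun q => fderiv ℝ u q (1, 0)) p (1, 0)
        + fderiv ℝ (fun q => fderiv ℝ u q (0, 1)) p (0, 1)) := by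
    intro u p
    have h1 : (fun q => (Real.sqrt (dt q))⁻¹ •
            (g22 q • fderiv ℝ u q (1, 0) - g12 q • fderiv ℝ u q (0, 1)))
        = fun q => fderiv ℝ u q (1, 0) := by
      funext q
      rw [hsq q, h120 q, zero_smul, sub_zero, ← h1122 q, smul_smul, inv_mul_cancel₀ (h11pos q).ne',
        one_smul]
    have h2 : (fun q => (Real.sqrt (dt q))⁻¹ •
            (g11 q • fderiv ℝ u q (0, 1) - g12 q • fderiv ℝ u q (1, 0)))
        = fun q => fderiv ℝ u q (0, 1) := by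
      funext q
      rw [hsq q, h120 q, zero_smul, sub_zero, smul_smul, inv_mul_cancel₀ (h11pos q).ne', one_smul]
    rw [hLap u p, h1, h2, hsq p]
  have hLs : ∀ u : ℝ × ℝ → EuclideanSpace ℝ (Fin m), ContDiff ℝ ∞ u → ContDiff ℝ ∞ (Lap u) := by
    intro u hu
    have h1 : Lap u = fun p => (g11 p)⁻¹ • (fderiv ℝ (fun q => fderiv ℝ u q (1, 0)) p (1, 0)
        + fderiv ℝ (fun q => fderiv ℝ u q (0, 1)) p (0, 1)) := funext (hLap' u)
    rw [h1]
    exact h11i.smul ((contDiff_dir _ (contDiff_dir u hu _) _).add (contDiff_dir _ (contDiff_dir u hu _) _))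
  have hDD : ∀ (u : ℝ × ℝ → EuclideanSpace ℝ (Fin m)) (hu : ContDiff ℝ ∞ u) (i : Fin m) (p : ℝ × ℝ),
      (D' (D (cmp u hu i))).val p = ((g11 p / 4 * (Lap u p) i : ℝ) : ℂ) := by
    intro u hu i p
    rw [D'D_pd, pd_cmp, pd_cmp, pd_cmp, pd_cmp, cmp_val, cmp_val, hLap' u p]
    have hne := (h11pos p).ne'
    have h1 : ((g11 p)⁻¹ • (fderiv ℝ (fun q => fderiv ℝ u q (1, 0)) p (1, 0)
        + fderiv ℝ (fun q => fderiv ℝ u q (0, 1)) p (0, 1))) i
        = (g11 p)⁻¹ * ((fderiv ℝ (fun q => fderiv ℝ u q (1, 0)) p (1, 0)) i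
          + (fderiv ℝ (fun q => fderiv ℝ u q (0, 1)) p (0, 1)) i) := rfl
    rw [h1]
    have h2 : g11 p / 4 * ((g11 p)⁻¹ * ((fderiv ℝ (fun q => fderiv ℝ u q (1, 0)) p (1, 0)) i
          + (fderiv ℝ (fun q => fderiv ℝ u q (0, 1)) p (0, 1)) i))
        = (1 / 4) * ((fderiv ℝ (fun q => fderiv ℝ u q (1, 0)) p (1, 0)) i
          + (fderiv ℝ (fun q => fderiv ℝ u q (0, 1)) p (0, 1)) i) := by
      field_simp
    rw [h2]
    push_cast
    ring
  -- the data
  have hLf := hLs f hf'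
  set x : Fin m → Sm := fun i => cmp f hf' i with hx
  have hpsd : ContDiff ℝ ∞ (fun p => (1 / c) • Lap f p) := ContDiff.const_smul (1 / c) hLf
  set ps : Fin m → Sm := fun i => cmp (fun p => (1 / c) • Lap f p) hpsd i with hps
  have hFs : ContDiff ℝ ∞ (fun p => ((g11 p / 2 : ℝ) : ℂ)) :=
    Complex.ofRealCLM.contDiff.comp (h11s.div_const 2)
  have hGs : ContDiff ℝ ∞ (fun p => ((2 * (g11 p)⁻¹ : ℝ) : ℂ)) :=
    Complex.ofRealCLM.contDiff.comp (contDiff_const.mul h11i)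
  have hDx : ∀ i p, (D (x i)).val p = (1 / 2) * ((((fderiv ℝ f p (1, 0)) i : ℝ) : ℂ)
      - Complex.I * (((fderiv ℝ f p (0, 1)) i : ℝ) : ℂ)) := by
    intro i p
    have h1 : (D (x i)) = cst (1 / 2) * (pd (1, 0) (x i) - cst Complex.I * pd (0, 1) (x i)) := rfl
    rw [h1, hx]
    simp only [pd_cmp, mul_val, sub_val, cst_val, cmp_val]
  have hin : ∀ v w : EuclideanSpace ℝ (Fin m), inner ℝ v w = ∑ i, v i * w i := by
    intro v w
    rw [PiLp.inner_apply]
    exact Finset.sum_congr rfl fun i _ => by simp [mul_comm]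
  have hsum_val : ∀ (a : Fin m → Sm) (p : ℝ × ℝ), (∑ i, a i).val p = ∑ i, (a i).val p := by
    intro a p
    exact map_sum (evr p) a Finset.univ
  have hdot_val : ∀ (a b : Fin m → Sm) (p : ℝ × ℝ), (dot a b).val p = ∑ i, (a i).val p * (b i).val p := by
    intro a b p
    have h1 : dot a b = ∑ i, a i * b i := rfl
    rw [h1, hsum_val]
    exact Finset.sum_congr rfl fun i _ => rfl
  have hcx : cjv x = x := by
    funext i; apply Sm.ext; intro p
    exact Complex.conj_ofReal _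
  have hcps : cjv ps = ps := by
    funext i; apply Sm.ext; intro p
    exact Complex.conj_ofReal _
  have hSab : ∀ p, (∑ i, (((fderiv ℝ f p (1, 0)) i : ℝ) : ℂ) * (((fderiv ℝ f p (1, 0)) i : ℝ) : ℂ))
      = ((g11 p : ℝ) : ℂ) := by
    intro p
    rw [h11 p, hin]; push_cast; rfl
  have hSbb : ∀ p, (∑ i, (((fderiv ℝ f p (0, 1)) i : ℝ) : ℂ) * (((fderiv ℝ f p (0, 1)) i : ℝ) : ℂ))
      = ((g11 p : ℝ) : ℂ) := by
    intro p
    rw [h1122 p, h22 p, hin]; push_cast; rfl
  have hSc : ∀ p, (∑ i, (((fderiv ℝ f p (1, 0)) i : ℝ) : ℂ) * (((fderiv ℝ f p (0, 1)) i : ℝ) : ℂ))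
      = 0 := by
    intro p
    have h1 := h120 p
    rw [h12 p, hin] at h1
    have h2 := congrArg (fun r : ℝ => (r : ℂ)) h1
    simp only at h2
    rw [Complex.ofReal_zero] at h2
    rw [← h2]; push_cast; rfl
  obtain ⟨N, hNk, hNA, hNps, hNF⟩ : ∃ N : Nt Sm m, N.k = -c / 2 ∧ N.A = Dv x ∧ N.ps = ps
      ∧ N.F = Sm.mk (fun p => ((g11 p / 2 : ℝ) : ℂ)) hFs := by
    refine ⟨{ k := -c / 2
              hk := div_ne_zero (neg_ne_zero.2 hc) two_ne_zero
              A := Dv x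
              ps := ps
              F := Sm.mk (fun p => ((g11 p / 2 : ℝ) : ℂ)) hFs
              G := Sm.mk (fun p => ((2 * (g11 p)⁻¹ : ℝ) : ℂ)) hGs
              hFG := ?_
              hFr := ?_
              hpr := hcps
              hAA := ?_
              hAB := ?_
              hA := ?_
              hPhi := ?_ }, rfl, rfl, rfl, rfl⟩
    · apply Sm.ext; intro p
      rw [mul_val, mk_val, mk_val, one_val, ← Complex.ofReal_mul]
      have hne := (h11pos p).ne'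
      have h1 : g11 p / 2 * (2 * (g11 p)⁻¹) = 1 := by field_simp
      rw [h1, Complex.ofReal_one]
    · apply Sm.ext; intro p
      exact Complex.conj_ofReal _
    · apply Sm.ext; intro p
      rw [hdot_val, zero_val]
      have h1 : ∀ i, (Dv x i).val p * (Dv x i).val p
          = (1 / 4) * ((((fderiv ℝ f p (1, 0)) i : ℝ) : ℂ) * (((fderiv ℝ f p (1, 0)) i : ℝ) : ℂ))
            - (1 / 4) * ((((fderiv ℝ f p (0, 1)) i : ℝ) : ℂ) * (((fderiv ℝ f p (0, 1)) i : ℝ) : ℂ))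
            - (Complex.I / 2) * ((((fderiv ℝ f p (1, 0)) i : ℝ) : ℂ) * (((fderiv ℝ f p (0, 1)) i : ℝ) : ℂ)) := by
        intro i
        have h2 : (Dv x i).val p = (D (x i)).val p := rfl
        rw [h2, hDx i p]
        linear_combination ((1 / 4) * (((fderiv ℝ f p (0, 1)) i : ℝ) : ℂ) ^ 2) * Complex.I_sq
      rw [Finset.sum_congr rfl fun i _ => h1 i]
      rw [Finset.sum_sub_distrib, Finset.sum_sub_distrib, ← Finset.mul_sum, ← Finset.mul_sum,
        ← Finset.mul_sum, hSab, hSbb, hSc]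
      ring
    · apply Sm.ext; intro p
      rw [hdot_val, mk_val]
      have h1 : ∀ i, (Dv x i).val p * (cjv (Dv x) i).val p
          = (1 / 4) * ((((fderiv ℝ f p (1, 0)) i : ℝ) : ℂ) * (((fderiv ℝ f p (1, 0)) i : ℝ) : ℂ))
            + (1 / 4) * ((((fderiv ℝ f p (0, 1)) i : ℝ) : ℂ) * (((fderiv ℝ f p (0, 1)) i : ℝ) : ℂ)) := by
        intro i
        have h2 : (Dv x i).val p = (D (x i)).val p := rfl
        have h3 : (cjv (Dv x) i).val p = (starRingEnd ℂ) ((D (x i)).val p) := rfl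
        rw [h3, h2, hDx i p]
        simp only [map_mul, map_sub, map_div₀, map_one, map_ofNat, Complex.conj_ofReal, Complex.conj_I]
        linear_combination (-(1 / 4) * (((fderiv ℝ f p (0, 1)) i : ℝ) : ℂ) ^ 2) * Complex.I_sq
      rw [Finset.sum_congr rfl fun i _ => h1 i]
      rw [Finset.sum_add_distrib, ← Finset.mul_sum, ← Finset.mul_sum, hSab, hSbb]
      push_cast
      ring
    · funext i; apply Sm.ext; intro p
      have h1 : (Dv' (Dv x) i).val p = (D' (D (x i))).val p := rfl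
      have h2 : ((-(Cst (((-c / 2 : ℝ)) : ℂ) * Sm.mk (fun p => ((g11 p / 2 : ℝ) : ℂ)) hFs)) • ps) i
          = (-(Cst (((-c / 2 : ℝ)) : ℂ) * Sm.mk (fun p => ((g11 p / 2 : ℝ) : ℂ)) hFs)) * ps i := rfl
      rw [h1, h2, hx, hDD, mul_val, neg_val, mul_val, Cst_val, mk_val, hps, cmp_val]
      have h3 : ((1 / c) • Lap f p) i = 1 / c * (Lap f p) i := rfl
      rw [h3]
      norm_cast
      field_simp
      ring
    · funext i; apply Sm.ext; intro p
      have h1 : (Dv' (Dv x - Dv ps) i).val p = (D' (D (x i) - D (ps i))).val p := rfl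
      have h2 : ((0 : Fin m → Sm) i).val p = 0 := rfl
      rw [h1, h2, D'_sub, sub_val, hx, hps, hDD, hDD]
      have h3 : Lap (fun p => (1 / c) • Lap f p) p = Lap f p := by
        have hd1 : ∀ (v : ℝ × ℝ → EuclideanSpace ℝ (Fin m)) (hv : ContDiff ℝ ∞ v) (e : ℝ × ℝ),
            (fun q => fderiv ℝ (fun r => (1 / c) • v r) q e) = fun q => (1 / c) • fderiv ℝ v q e := by
          intro v hv e
          funext q
          rw [fderiv_fun_const_smul ((hv.differentiable (by simp)) q)]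
          rfl
        rw [hLap', hd1 _ hLf, hd1 _ hLf]
        have hd2 := congrFun (hd1 _ (contDiff_dir _ hLf (1, 0)) (1, 0)) p
        have hd3 := congrFun (hd1 _ (contDiff_dir _ hLf (0, 1)) (0, 1)) p
        rw [hd2, hd3, ← smul_add, smul_comm, ← hLap', hL p, smul_smul, one_div, inv_mul_cancel₀ hc,
          one_smul]
      rw [h3]
      ring
  refine ⟨N, x, hNk, ?_, ?_, fun i p => rfl, hcx, hNA.symm, ?_⟩
  · intro i p
    rw [hNps, hps, cmp_val]
    rfl
  · intro p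
    rw [hNF, mk_val]
  · intro p
    have h1 : ev p N.g = ∑ i, ((((1 / c) • Lap f p) i : ℝ) : ℂ) * ((((1 / c) • Lap f p) i : ℝ) : ℂ) := by
      have h2 : N.g = dot ps ps := by
        have h3 : N.g = dot N.ps N.ps := rfl
        rw [h3, hNps]
      rw [h2]
      exact hdot_val ps ps p
    have h4 : ev p N.g = ((inner ℝ ((1 / c) • Lap f p) ((1 / c) • Lap f p) : ℝ) : ℂ) := by
      rw [h1, hin]; push_cast; rfl
    rw [h4, Complex.ofReal_re, real_inner_self_eq_norm_sq, norm_smul, mul_pow, Real.norm_eq_abs,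
      sq_abs, one_div, inv_pow, div_eq_inv_mul]

end N252
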